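import Pool.Agent.H.MP_7c0615_lc.A

set_option autoImplicit false

namespace Pool.Agent.Results.MP_7c0615_lc.Between

open Finset Filter Topology

def NonRed {r n : ℕ} (P : Set (Fin r → Bool)) (C : Finset (Fin r → Fin n)) : Prop :=
  ∀ c ∈ C, ∃ ψ : Fin n → Bool, ψ ∘ c ∉ P ∧ ∀ c' ∈ C, c' ≠ c → ψ ∘ c' ∈ P

open Classical in
noncomputable def NRD {r : ℕ} (P : Set (Fin r → Bool)) (n : ℕ) : ℕ :=
  (univ.filter fun C : Finset (Fin r → Fin n) => NonRed P C).sup card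

def al : Fin 4 → Fin 9 → ℤ := ![![1, 0, 0, 0, 1, 1, 0, 0, 0], ![0, 1, 0, 0, 0, 0, 1, 1, 0],
  ![0, 0, 1, 1, 0, 0, 0, 0, -1], ![2, -2, -1, 1, 0, 1, 0, -1, 0]]

def be : Fin 4 → ℤ := ![1, 1, 0, 0]

def Q (t : Fin 9 → Bool) : Prop := ∀ j, ∑ i, al j i * (t i).toNat = be j

instance : DecidablePred Q := fun _ => by unfold Q; infer_instance

def G : Fin 9 → Bool → Bool → Bool := ![and, and, fun x y => x && !y, fun x y => !x && y,
  fun x y => !x && !y, xor, fun x y => !x && !y, xor, xor]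

def fi : Fin 9 → Fin 3 := ![0, 1, 0, 0, 0, 0, 1, 1, 0]

def se : Fin 9 → Fin 3 := ![1, 2, 2, 2, 1, 1, 2, 2, 2]

theorem f1 : ∀ t, Q t → ¬(t 2 ∧ t 3) ∧ (t 0 → t 1 = !t 2) ∧ (t 1 → t 0 = !t 3) := by
  decide +kernel

theorem f2 : ∀ x : Fin 3 → Bool, (Q (fun t => G t (x (fi t)) (x (se t))) ∧
    ¬(G 0 (x (fi 0)) (x (se 0)) ∧ G 1 (x (fi 1)) (x (se 1)))) ↔ ¬∀ i, x i := by
  decide +kernel

theorem low (n m : ℕ) (h : 9 * (m * m) ≤ n) : m ^ 3 ≤ NRD {t | Q t ∧ ¬(t 0 ∧ t 1)} n := by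
  classical
  obtain ⟨e⟩ : Nonempty (Fin 9 × Fin m × Fin m ↪ Fin n) :=
    Function.Embedding.nonempty_of_card_le (by simpa using h)
  let cl : (Fin 3 → Fin m) → Fin 9 → Fin n := fun s t => e (t, s (fi t), s (se t))
  have h1 : ∀ s, ∃ ψ : Fin n → Bool, ∀ s', ψ ∘ cl s' ∈ {t | Q t ∧ ¬(t 0 ∧ t 1)} ↔ s' ≠ s :=
    fun s => by
      refine ⟨Function.extend e (fun p => G p.1 (p.2.1 = s (fi p.1)) (p.2.2 = s (se p.1)))
        fun _ => false, fun s' => ?_⟩
      have := f2 fun i => s' i = s i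
      simp only [Set.mem_ofPred_eq, Function.comp_def, cl, e.injective.extend_apply]
      simpa [funext_iff] using this
  have h2 : Function.Injective cl := fun s s' k => by
    obtain ⟨ψ, h⟩ := h1 s
    exact by_contra fun l => (h s).1 (k ▸ (h s').2 (Ne.symm l)) rfl
  refine le_trans (by simp [card_image_of_injective _ h2])
    (le_sup (f := card) (b := univ.image cl) (mem_filter.2 ⟨mem_univ _, fun c hc => ?_⟩))
  obtain ⟨s, -, rfl⟩ := mem_image.1 hc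
  obtain ⟨ψ, h⟩ := h1 s
  refine ⟨ψ, fun l => (h s).1 l rfl, fun c hc l => ?_⟩
  obtain ⟨s', -, rfl⟩ := mem_image.1 hc
  exact (h s').2 fun k => l (k ▸ rfl)

theorem up (ε : ℝ) (hε : 0 < ε) : ∃ n0 : ℕ, ∀ n ≥ n0,
    (NRD {t | Q t ∧ ¬(t 0 ∧ t 1)} n : ℝ) ≤ 4 * (n + 1) + 5 * ε * n ^ 2 := by
  classical
  obtain ⟨n0, h⟩ := H.MP_7c0615_lc.reg ε hε
  refine ⟨n0, fun n hn => ?_⟩
  obtain ⟨C, hC, k⟩ := exists_mem_eq_sup (univ.filter fun C : Finset (Fin 9 → Fin n) =>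
    NonRed {t | Q t ∧ ¬(t 0 ∧ t 1)} C) ⟨∅, by simp [NonRed]⟩ card
  rw [NRD, k]
  choose! ψ h1 h2 using (mem_filter.1 hC).2
  simp only [Set.mem_ofPred_eq, Function.comp_apply, not_and, not_forall, not_not] at h1 h2
  have a1 := h n hn _ (C.filter fun c => Q (ψ c ∘ c)) (· 0) (· 1) (· 2) (· 3) ?_ ?_ ?_ ?_
  · have a2 : ∀ j, #(C.filter fun c => ∑ i, al j i * (ψ c (c i)).toNat ≠ be j) ≤ n + 1 :=
      fun j => by
        simpa using H.MP_7c0615_lc.lin (C.filter fun c => ∑ i, al j i * (ψ c (c i)).toNat ≠ be j)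
          id (fun c v => (ψ c v).toNat) (fun i => al j i) (be j)
          (fun e he => by exact_mod_cast (mem_filter.1 he).2) fun e he f hf k => by
            exact_mod_cast (h2 e (mem_filter.1 he).1 f (mem_filter.1 hf).1 k).1 j
    have a3 : C ⊆ (univ.biUnion fun j => C.filter fun c =>
        ∑ i, al j i * (ψ c (c i)).toNat ≠ be j) ∪ C.filter fun c => Q (ψ c ∘ c) := fun c hc => by
      by_cases k : Q (ψ c ∘ c)
      · simp [hc, k]
      · exact mem_union_left _ (by simpa [hc, Q] using k)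
    have a4 := (card_le_card a3).trans ((card_union_le _ _).trans (add_le_add_left
      (card_biUnion_le.trans (sum_le_card_nsmul _ _ _ fun j _ => a2 j)) _))
    have a5 : (#C : ℝ) ≤ 4 * (n + 1) + #(C.filter fun c => Q (ψ c ∘ c)) := by
      simp only [card_univ, Fintype.card_fin, smul_eq_mul] at a4
      exact_mod_cast a4
    linarith
  all_goals
    simp only [mem_filter]
  · refine fun e he e' he' k l => by_contra fun m => ?_
    obtain ⟨x, y⟩ := h1 e he.1 he.2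
    exact (h2 e he.1 e' he'.1 (Ne.symm m)).2 (k ▸ x) (l ▸ y)
  · refine fun e he e' he' k l => by_contra fun m => ?_
    obtain ⟨x, y⟩ := h1 e he.1 he.2
    have z := h2 e he.1 e' he'.1 (Ne.symm m)
    have z1 := (f1 _ he.2).2.1 x
    have z2 := (f1 _ z.1).2.1 (show ψ e (e' 0) from k ▸ x)
    simp only [Function.comp_apply, ← l] at z1 z2
    exact z.2 (k ▸ x) (z2.trans (z1.symm.trans y))
  · refine fun e he e' he' k l => by_contra fun m => ?_
    obtain ⟨x, y⟩ := h1 e he.1 he.2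
    have z := h2 e he.1 e' he'.1 (Ne.symm m)
    have z1 := (f1 _ he.2).2.2 y
    have z2 := (f1 _ z.1).2.2 (show ψ e (e' 1) from k ▸ y)
    simp only [Function.comp_apply, ← l] at z1 z2
    exact z.2 (z2.trans (z1.symm.trans x)) (k ▸ y)
  · refine fun e he e' he' e'' he'' f hf k1 k2 k3 k4 => by_contra fun m => ?_
    obtain ⟨x, y⟩ := h1 e he.1 he.2
    obtain ⟨m1, m2⟩ := not_or.1 m
    have z := h2 e he.1 e' he'.1 m1
    have w := h2 e he.1 e'' he''.1 m2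
    have z1 := (f1 _ z.1).2.1 (show ψ e (e' 0) from k1 ▸ x)
    have z2 := (f1 _ w.1).2.2 (show ψ e (e'' 1) from k2 ▸ y)
    have z3 := z.2 (k1 ▸ x)
    have z4 := fun l => w.2 l (k2 ▸ y)
    have z5 : Q (ψ e ∘ f) := by
      by_cases l : f = e
      · exact l ▸ he.2
      · exact (h2 e he.1 f hf.1 l).1
    simp only [Function.comp_apply, k3, k4] at z1 z2
    exact (f1 _ z5).1 ⟨by simpa [z1] using z3, by simpa [z2] using z4⟩

theorem result : ∃ r ≥ 1, ∃ P : Set (Fin r → Bool),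
    Tendsto (fun n : ℕ => (NRD P n : ℝ) / n) atTop atTop ∧
    Tendsto (fun n : ℕ => (NRD P n : ℝ) / n ^ 2) atTop (𝓝 0) := by
  refine ⟨9, by norm_num, {t | Q t ∧ ¬(t 0 ∧ t 1)}, tendsto_atTop.2 fun b => ?_,
    tendsto_order.2 ⟨fun a ha => .of_forall fun n => ha.trans_le (by positivity), fun a ha => ?_⟩⟩
  · filter_upwards [eventually_ge_atTop (9 * ((36 * ⌈b⌉₊ + 1) * (36 * ⌈b⌉₊ + 1)))] with n hn
    obtain ⟨m, hm⟩ : ∃ m, m = Nat.sqrt (n / 9) := ⟨_, rfl⟩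
    have h1 : m * m ≤ n / 9 := hm ▸ Nat.sqrt_le _
    have h2 : n / 9 < (m + 1) * (m + 1) := hm ▸ Nat.lt_succ_sqrt _
    have h3 : 36 * ⌈b⌉₊ + 1 ≤ m := hm ▸ Nat.le_sqrt.2 (by omega)
    have h4 := low n m (by omega)
    have h5 : n ≤ 36 * (m * m) := by
      have : n < 9 * ((m + 1) * (m + 1)) := by omega
      nlinarith
    have h6 : ⌈b⌉₊ * n ≤ NRD {t | Q t ∧ ¬(t 0 ∧ t 1)} n := by nlinarith
    have h7 : (0 : ℝ) < n := by exact_mod_cast (by nlinarith)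
    rw [le_div_iff₀ h7]
    exact (mul_le_mul_of_nonneg_right (Nat.le_ceil b) h7.le).trans (by exact_mod_cast h6)
  · obtain ⟨n0, h⟩ := up (a / 10) (by positivity)
    filter_upwards [eventually_ge_atTop n0, eventually_gt_atTop (⌈16 / a⌉₊)] with n hn k
    have h1 : 16 / a < n := (Nat.le_ceil _).trans_lt (by exact_mod_cast k)
    have h2 : (1 : ℝ) ≤ n := by exact_mod_cast (by omega)
    rw [div_lt_iff₀ ha] at h1
    rw [div_lt_iff₀ (by positivity)]
    nlinarith [h n hn]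

end Pool.Agent.Results.MP_7c0615_lc.Between
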